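import Mathlib
import Pool.Agent.R293.VP

/-!
# MP_0b3510_an: infinite reduced free powers of `𝒪_∞` depend on the state

There are states `ω₁, ω₂` on `𝒪_∞` such that the infinite reduced free powers of `(𝒪_∞, ω₁)` and of
`(𝒪_∞, ω₂)` are not isomorphic, not even as C*-algebras.

`ω₁` is the vacuum state, `ω₁(s_i s_i*) = 0` for all `i`, and `ω₂` is the mean of `ω₁` and of the
vector state of a one-particle vector of the Fock representation.  In the free power of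
`(𝒪_∞, ω₁)` the isometries of the different copies of `𝒪_∞` have orthogonal ranges, so this free
power is again `𝒪_∞` and has approximately central isometries with orthogonal ranges.  The
centralizer of `ω₂` contains a unitary `w` with `ω₂(w) = 0`; the copies of `w` in three factors of
the free power of `(𝒪_∞, ω₂)` give a spectral gap (as for property Γ), which excludes approximately
central isometries with orthogonal ranges.
-/

set_option autoImplicit false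

namespace Pool.Agent.Results.MP_0b3510_an.FreePowersDiffer

/-- `O` is the Cuntz algebra `𝒪_∞`: a nonzero unital C*-algebra generated by a sequence of
isometries with mutually orthogonal ranges. -/
def IsCuntzInfinity (O : Type) [CStarAlgebra O] : Prop :=
  Nontrivial O ∧ ∃ s : ℕ → O, (∀ i, star (s i) * s i = 1) ∧ (∀ i j, i ≠ j → star (s i) * s j = 0) ∧
    (StarAlgebra.adjoin ℂ (Set.range s)).topologicalClosure = ⊤

/-- `μ` is a state. -/
def IsState {D : Type} [CStarAlgebra D] (μ : D →ₗ[ℂ] ℂ) : Prop :=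
  μ 1 = 1 ∧ ∀ x, 0 ≤ (μ (star x * x)).re ∧ (μ (star x * x)).im = 0

/-- `(D, ρ)`, with the embeddings `e k`, `k ∈ ℕ`, is the reduced free product of countably
infinitely many copies of `(O, ω)`: `ρ` is a state, `ρ ∘ e k = ω`, the copies `e k (O)` are free
with respect to `ρ` (`ρ` vanishes on the products `e k₁ x₁ ⋯ e kₙ xₙ`, `n ≥ 1`, with `k₁ ≠ k₂ ≠ ⋯`
and `ω(x₁) = ⋯ = ω(xₙ) = 0`) and generate `D`, and the GNS representation of `ρ` is faithful. -/
structure IsReducedFreePower {O : Type} [CStarAlgebra O] (ω : O →ₗ[ℂ] ℂ) {D : Type}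
    [CStarAlgebra D] (ρ : D →ₗ[ℂ] ℂ) (e : ℕ → O →⋆ₐ[ℂ] D) : Prop where
  state : IsState ρ
  restrict : ∀ k x, ρ (e k x) = ω x
  free : ∀ w : List (ℕ × O), w ≠ [] → w.IsChain (fun a b => a.1 ≠ b.1) → (∀ z ∈ w, ω z.2 = 0) →
    ρ ((w.map fun z => e z.1 z.2).prod) = 0
  generate : (StarAlgebra.adjoin ℂ (⋃ k, Set.range (e k))).topologicalClosure = ⊤
  gns_faithful : ∀ a, (∀ x, ρ (star (a * x) * (a * x)) = 0) → a = 0

open Pool.Agent.H923R2.FZ (IsRFP) in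
lemma to_rfp {O : Type} [CStarAlgebra O] {ω : O →ₗ[ℂ] ℂ} {D : Type} [CStarAlgebra D]
    {ρ : D →ₗ[ℂ] ℂ} {e : ℕ → O →⋆ₐ[ℂ] D} (h : IsReducedFreePower ω ρ e) :
    IsRFP (J := ℕ) (fun _ => O) (fun _ => (ω : O → ℂ)) ρ e where
  one := h.state.1
  nonneg x := by
    rw [Complex.nonneg_iff]
    exact ⟨(h.state.2 x).1, (h.state.2 x).2.symm⟩
  tr := h.restrict
  free w hne hc hw := by
    have h1 := h.free (w.map fun z => (z.1, z.2)) (by simpa using hne)
      (by rw [List.isChain_map]; exact hc) (by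
        intro z hz
        obtain ⟨y, hy, rfl⟩ := List.mem_map.1 hz
        exact hw y hy)
    rw [List.map_map] at h1
    exact h1
  gen := h.generate
  gns := h.gns_faithful

open Pool.Agent.H923R2.FZ (IsRFP) in
lemma of_rfp {O : Type} [CStarAlgebra O] {ω : O →ₗ[ℂ] ℂ} {D : Type} [CStarAlgebra D]
    {ρ : D →ₗ[ℂ] ℂ} {e : ℕ → O →⋆ₐ[ℂ] D}
    (h : IsRFP (J := ℕ) (fun _ => O) (fun _ => (ω : O → ℂ)) ρ e) : IsReducedFreePower ω ρ e where
  state := by
    refine ⟨h.one, fun x => ?_⟩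
    have h1 := h.nonneg x
    rw [Complex.nonneg_iff] at h1
    exact ⟨h1.1, h1.2.symm⟩
  restrict := h.tr
  free w hne hc hw := by
    have h1 := h.free (w.map fun z => ⟨z.1, z.2⟩) (by simpa using hne)
      (by rw [List.isChain_map]; exact hc) (by
        intro z hz
        obtain ⟨y, hy, rfl⟩ := List.mem_map.1 hz
        exact hw y hy)
    rw [List.map_map] at h1
    exact h1
  generate := h.gen
  gns_faithful := h.gns

open scoped ComplexOrder in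
lemma state_of {D : Type} [CStarAlgebra D] {μ : D →ₗ[ℂ] ℂ} (h1 : μ 1 = 1)
    (h2 : ∀ x, 0 ≤ μ (star x * x)) : IsState μ := by
  refine ⟨h1, fun x => ?_⟩
  have h := h2 x
  rw [Complex.nonneg_iff] at h
  exact ⟨h.1, h.2.symm⟩

/-- There are states `ω₁, ω₂` on `𝒪_∞` such that the infinite reduced free powers `D₁` of
`(𝒪_∞, ω₁)` and `D₂` of `(𝒪_∞, ω₂)`, which exist, are not isomorphic as C*-algebras. -/
theorem result :
    ∃ (O : Type) (_ : CStarAlgebra O) (ω₁ ω₂ : O →ₗ[ℂ] ℂ),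
      IsCuntzInfinity O ∧ IsState ω₁ ∧ IsState ω₂ ∧
      (∃ (D₁ : Type) (_ : CStarAlgebra D₁) (ρ₁ : D₁ →ₗ[ℂ] ℂ) (e₁ : ℕ → O →⋆ₐ[ℂ] D₁),
        IsReducedFreePower ω₁ ρ₁ e₁) ∧
      (∃ (D₂ : Type) (_ : CStarAlgebra D₂) (ρ₂ : D₂ →ₗ[ℂ] ℂ) (e₂ : ℕ → O →⋆ₐ[ℂ] D₂),
        IsReducedFreePower ω₂ ρ₂ e₂) ∧
      ∀ (D₁ D₂ : Type) [CStarAlgebra D₁] [CStarAlgebra D₂] (ρ₁ : D₁ →ₗ[ℂ] ℂ) (ρ₂ : D₂ →ₗ[ℂ] ℂ)
        (e₁ : ℕ → O →⋆ₐ[ℂ] D₁) (e₂ : ℕ → O →⋆ₐ[ℂ] D₂),
        IsReducedFreePower ω₁ ρ₁ e₁ → IsReducedFreePower ω₂ ρ₂ e₂ → IsEmpty (D₁ ≃⋆ₐ[ℂ] D₂) := by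
  refine ⟨Pool.Agent.R293.OI.OO, inferInstance, Pool.Agent.R293.VP.om1, Pool.Agent.R293.VP.om2,
    Pool.Agent.R293.OI.OO_cuntz, state_of Pool.Agent.R293.VP.om1_one
      Pool.Agent.R293.VP.om1_nonneg, state_of Pool.Agent.R293.VP.om2_one
      Pool.Agent.R293.VP.om2_nonneg, ?_, ?_, ?_⟩
  · obtain ⟨A, i, φ, e, h⟩ := Pool.Agent.R293.RFP.ex ℕ (fun _ => Pool.Agent.R293.OI.OO)
      (fun _ => Pool.Agent.R293.VP.om1) (fun _ => Pool.Agent.R293.VP.om1_one)
      (fun _ => Pool.Agent.R293.VP.om1_nonneg)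
    exact ⟨A, i, φ, e, of_rfp h⟩
  · obtain ⟨A, i, φ, e, h⟩ := Pool.Agent.R293.RFP.ex ℕ (fun _ => Pool.Agent.R293.OI.OO)
      (fun _ => Pool.Agent.R293.VP.om2) (fun _ => Pool.Agent.R293.VP.om2_one)
      (fun _ => Pool.Agent.R293.VP.om2_nonneg)
    exact ⟨A, i, φ, e, of_rfp h⟩
  · intro D₁ D₂ _ _ ρ₁ ρ₂ e₁ e₂ h1 h2
    exact Pool.Agent.R293.VP.not_iso (to_rfp h1) (to_rfp h2)

end Pool.Agent.Results.MP_0b3510_an.FreePowersDiffer
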